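import Mathlib

set_option autoImplicit false

/-! Finite product probabilities on the cube. -/

namespace Pool.Agent.J4H23.SD

open Finset

/-- the probability of the bit `b`, if the probability of `true` is `t` -/
def bern (t : ℝ) (b : Bool) : ℝ := if b then t else 1 - t

variable {ι : Type} [Fintype ι] [DecidableEq ι]

/-- the probability of the point `s` of the cube, if the bits are independent and the bit `i` is `true` with
probability `p i` -/
def wt (p : ι → ℝ) (s : ι → Bool) : ℝ := ∏ i, bern (p i) (s i)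

theorem bern_nonneg {t : ℝ} (h0 : 0 ≤ t) (h1 : t ≤ 1) (b : Bool) : 0 ≤ bern t b := by
  cases b
  · simp [bern]; linarith
  · simp [bern]; linarith

theorem wt_nonneg {p : ι → ℝ} (h0 : ∀ i, 0 ≤ p i) (h1 : ∀ i, p i ≤ 1) (s : ι → Bool) : 0 ≤ wt p s :=
  Finset.prod_nonneg fun i _ => bern_nonneg (h0 i) (h1 i) _

theorem sum_bern (t : ℝ) : ∑ b : Bool, bern t b = 1 := by
  simp [bern]

theorem sum_wt (p : ι → ℝ) : ∑ s, wt p s = 1 := by
  unfold wt
  rw [← Fintype.piFinset_univ, ← Finset.prod_univ_sum]
  exact Finset.prod_eq_one fun i _ => sum_bern (p i)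

/-- push forward of a product weight -/
theorem push {κ β : Type} [Fintype κ] [DecidableEq κ] [Fintype β] [DecidableEq β] (g : ι → κ → ℝ)
    (φ : ι → κ → β) (B : (ι → β) → ℝ) :
    ∑ z : ι → κ, (∏ i, g i (z i)) * B (fun i => φ i (z i)) =
      ∑ s : ι → β, (∏ i, ∑ b ∈ Finset.univ.filter (fun b => φ i b = s i), g i b) * B s := by
  classical
  have e : ∀ s : ι → β, (∏ i, ∑ b ∈ Finset.univ.filter (fun b => φ i b = s i), g i b) * B s =
      ∑ z ∈ Finset.univ.filter (fun z : ι → κ => (fun i => φ i (z i)) = s),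
        (∏ i, g i (z i)) * B (fun i => φ i (z i)) := by
    intro s
    rw [Finset.prod_univ_sum, Finset.sum_mul]
    refine Finset.sum_congr ?_ ?_
    · ext z
      simp only [Fintype.mem_piFinset, Finset.mem_filter, Finset.mem_univ, true_and]
      exact ⟨fun h => funext h, fun h i => congrFun h i⟩
    · intro z hz
      rw [Finset.mem_filter] at hz
      rw [hz.2]
  rw [Finset.sum_congr rfl (fun s _ => e s)]
  exact (Finset.sum_fiberwise Finset.univ (fun z : ι → κ => (fun i => φ i (z i))) _).symm

/-- the points of the cube which agree with `y` where `r` is true and with `a` elsewhere -/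
def mix (r y a : ι → Bool) : ι → Bool := fun i => if r i then y i else a i

/-- biased bits as partially randomised bits -/
theorem mixture (q : ι → ℝ) (a : ι → Bool) (B : (ι → Bool) → ℝ) :
    ∑ s, wt (fun i => if a i then 1 - q i else q i) s * B s =
      ∑ r, wt (fun i => 2 * q i) r * ((1 / 2) ^ Fintype.card ι * ∑ y, B (mix r y a)) := by
  classical
  have h := push (fun i (b : Bool × Bool) => bern (2 * q i) b.1 * (1 / 2 : ℝ))
    (fun i b => if b.1 then b.2 else a i) B
  have e1 : ∀ s : ι → Bool, (∏ i, ∑ b ∈ Finset.univ.filter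
      (fun b : Bool × Bool => (if b.1 then b.2 else a i) = s i), bern (2 * q i) b.1 * (1 / 2 : ℝ)) =
      wt (fun i => if a i then 1 - q i else q i) s := by
    intro s
    unfold wt
    refine Finset.prod_congr rfl fun i _ => ?_
    have hu : (Finset.univ : Finset (Bool × Bool)) = {(true, true), (true, false), (false, true), (false, false)} := by
      decide
    rw [hu]
    cases ha : a i <;> cases hs : s i <;>
      simp [Finset.filter_insert, Finset.filter_singleton, bern, ha] <;> ring
  have h' : ∑ s : ι → Bool, (∏ i, ∑ b ∈ Finset.univ.filter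
      (fun b : Bool × Bool => (if b.1 then b.2 else a i) = s i), bern (2 * q i) b.1 * (1 / 2 : ℝ)) * B s =
      ∑ s, wt (fun i => if a i then 1 - q i else q i) s * B s :=
    Finset.sum_congr rfl (fun s _ => by rw [e1 s])
  rw [← h', ← h]
  have e2 := Equiv.sum_comp (Equiv.arrowProdEquivProdArrow ι (fun _ => Bool) (fun _ => Bool)).symm
    (fun z : ι → Bool × Bool => (∏ i, bern (2 * q i) (z i).1 * (1 / 2 : ℝ)) *
      B (fun i => if (z i).1 then (z i).2 else a i))
  rw [← e2, Fintype.sum_prod_type]
  refine Finset.sum_congr rfl fun r _ => ?_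
  rw [Finset.mul_sum, Finset.mul_sum]
  refine Finset.sum_congr rfl fun y _ => ?_
  rw [← mul_assoc]
  congr 1
  simp only [Equiv.arrowProdEquivProdArrow_symm_apply, Finset.prod_mul_distrib, Finset.prod_const,
    Finset.card_univ, wt]

/-- averaging over one coordinate -/
theorem avg (t : ι → ℝ) (i : ι) (h : (ι → Bool) → ℝ) :
    ∑ r, wt t r * h r = ∑ r, wt t r * (t i * h (Function.update r i true) +
      (1 - t i) * h (Function.update r i false)) := by
  classical
  set fl : (ι → Bool) → (ι → Bool) := fun r => Function.update r i (!(r i)) with hfl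
  have hinv : Function.Involutive fl := by
    intro r
    funext j
    by_cases hj : j = i
    · subst hj; simp [hfl]
    · simp [hfl, hj]
  set w' : (ι → Bool) → ℝ := fun r => ∏ j ∈ Finset.univ.erase i, bern (t j) (r j) with hw'
  have hw : ∀ r, wt t r = bern (t i) (r i) * w' r := fun r =>
    (Finset.mul_prod_erase Finset.univ (fun j => bern (t j) (r j)) (Finset.mem_univ i)).symm
  have hw'f : ∀ r, w' (fl r) = w' r := by
    intro r
    refine Finset.prod_congr rfl fun j hj => ?_
    have : j ≠ i := (Finset.mem_erase.1 hj).1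
    simp [hfl, this]
  have hfi : ∀ r, fl r i = !(r i) := fun r => by simp [hfl]
  have hM : ∀ r b, Function.update (fl r) i b = Function.update r i b := by
    intro r b
    simp [hfl]
  have sumfl : ∀ G : (ι → Bool) → ℝ, ∑ r, G (fl r) = ∑ r, G r := fun G =>
    Equiv.sum_comp hinv.toPerm G
  have two : ∀ G G' : (ι → Bool) → ℝ, (∀ r, G r + G (fl r) = G' r + G' (fl r)) →
      ∑ r, G r = ∑ r, G' r := by
    intro G G' hGG
    have h1 : ∑ r, (G r + G (fl r)) = ∑ r, (G' r + G' (fl r)) := Finset.sum_congr rfl fun r _ => hGG r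
    rw [Finset.sum_add_distrib, Finset.sum_add_distrib, sumfl, sumfl] at h1
    linarith
  apply two
  intro r
  rw [hw, hw, hw'f, hfi, hM, hM]
  have hur : Function.update r i (r i) = r := Function.update_eq_self i r
  cases hr : r i
  · have e1 : r = Function.update r i false := by rw [← hr]; exact hur.symm
    have e2 : fl r = Function.update r i true := by rw [hfl]; simp only [hr, Bool.not_false]
    rw [← e1, e2]
    simp only [bern, Bool.not_false, if_true, Bool.false_eq_true, if_false]
    ring
  · have e1 : r = Function.update r i true := by rw [← hr]; exact hur.symm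
    have e2 : fl r = Function.update r i false := by rw [hfl]; simp only [hr, Bool.not_true]
    rw [← e1, e2]
    simp only [bern, Bool.not_true, if_true, Bool.false_eq_true, if_false]
    ring

/-- the number of the pairs which are contained in `r` -/
def num {ν : ℕ} (u w : Fin ν → ι) (r : ι → Bool) : ℕ :=
  (Finset.univ.filter (fun k => r (u k) = true ∧ r (w k) = true)).card

theorem pair_weight {ν : ℕ} (u w : Fin ν → ι) (hinj : Function.Injective (Sum.elim u w)) (t : ι → ℝ)
    (h0 : ∀ i, 0 ≤ t i) (h1 : ∀ i, t i ≤ 1) :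
    (∑ k, t (u k) * t (w k)) * ∑ r, wt t r * (1 / (1 + (num u w r : ℝ))) ≤ 1 := by
  classical
  set g : Fin ν → (ι → Bool) → ℝ := fun k r =>
    1 / (1 + (((Finset.univ.erase k).filter (fun l => r (u l) = true ∧ r (w l) = true)).card : ℝ)) with hg
  have huw : ∀ a b, u a ≠ w b := fun a b hab => by
    have := hinj (a₁ := Sum.inl a) (a₂ := Sum.inr b) hab
    cases this
  have hu : ∀ a b, u a = u b → a = b := fun a b hab =>
    Sum.inl_injective (hinj (a₁ := Sum.inl a) (a₂ := Sum.inl b) hab)
  have hw : ∀ a b, w a = w b → a = b := fun a b hab =>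
    Sum.inr_injective (hinj (a₁ := Sum.inr a) (a₂ := Sum.inr b) hab)
  have gu : ∀ k r b, g k (Function.update r (u k) b) = g k r := by
    intro k r b
    simp only [hg]
    congr 4
    refine Finset.filter_congr fun l hl => ?_
    have hl' : l ≠ k := (Finset.mem_erase.1 hl).1
    rw [Function.update_of_ne (fun h => hl' (hu _ _ h)), Function.update_of_ne (huw k l).symm]
  have gw : ∀ k r b, g k (Function.update r (w k) b) = g k r := by
    intro k r b
    simp only [hg]
    congr 4
    refine Finset.filter_congr fun l hl => ?_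
    have hl' : l ≠ k := (Finset.mem_erase.1 hl).1
    rw [Function.update_of_ne (huw l k), Function.update_of_ne (fun h => hl' (hw _ _ h))]
  have hle : ∀ k r, 1 / (1 + (num u w r : ℝ)) ≤ g k r := by
    intro k r
    simp only [hg]
    apply one_div_le_one_div_of_le (by positivity)
    have : (((Finset.univ.erase k).filter (fun l => r (u l) = true ∧ r (w l) = true)).card : ℝ) ≤
        (num u w r : ℝ) := by
      exact_mod_cast Finset.card_le_card (Finset.filter_subset_filter _ (Finset.subset_univ _))
    linarith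
  have hk : ∀ k, t (u k) * t (w k) * ∑ r, wt t r * (1 / (1 + (num u w r : ℝ))) ≤
      ∑ r, wt t r * ((if r (u k) = true ∧ r (w k) = true then 1 else 0) * g k r) := by
    intro k
    have e1 : ∑ r, wt t r * ((if r (u k) = true ∧ r (w k) = true then 1 else 0) * g k r) =
        t (u k) * t (w k) * ∑ r, wt t r * g k r := by
      rw [avg t (u k), Finset.mul_sum]
      have e2 : ∀ r : ι → Bool, wt t r *
          (t (u k) * ((if Function.update r (u k) true (u k) = true ∧ Function.update r (u k) true (w k) = true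
            then 1 else 0) * g k (Function.update r (u k) true)) +
          (1 - t (u k)) * ((if Function.update r (u k) false (u k) = true ∧
            Function.update r (u k) false (w k) = true then 1 else 0) * g k (Function.update r (u k) false))) =
          wt t r * (t (u k) * (if r (w k) = true then 1 else 0) * g k r) := by
        intro r
        rw [gu, gu, Function.update_self, Function.update_self, Function.update_of_ne (huw k k).symm]
        simp
      rw [Finset.sum_congr rfl (fun r _ => e2 r), avg t (w k)]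
      refine Finset.sum_congr rfl fun r _ => ?_
      rw [gw, gw, Function.update_self, Function.update_self]
      simp
      ring
    rw [e1]
    apply mul_le_mul_of_nonneg_left _ (mul_nonneg (h0 _) (h0 _))
    exact Finset.sum_le_sum fun r _ => mul_le_mul_of_nonneg_left (hle k r) (wt_nonneg h0 h1 r)
  rw [Finset.sum_mul]
  refine (Finset.sum_le_sum fun k _ => hk k).trans ?_
  rw [Finset.sum_comm]
  refine le_trans ?_ (sum_wt t).le
  refine Finset.sum_le_sum fun r _ => ?_
  rw [← Finset.mul_sum]
  have : ∑ k, ((if r (u k) = true ∧ r (w k) = true then 1 else 0) * g k r) ≤ 1 := by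
    have e : ∀ k, ((if r (u k) = true ∧ r (w k) = true then 1 else 0) * g k r) =
        if r (u k) = true ∧ r (w k) = true then 1 / (num u w r : ℝ) else 0 := by
      intro k
      by_cases hk : r (u k) = true ∧ r (w k) = true
      · rw [if_pos hk, if_pos hk, one_mul]
        simp only [hg]
        congr 1
        have hmem : k ∈ Finset.univ.filter (fun k => r (u k) = true ∧ r (w k) = true) := by
          rw [Finset.mem_filter]; exact ⟨Finset.mem_univ _, hk⟩
        have := Finset.card_erase_add_one hmem
        rw [← Finset.filter_erase] at this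
        unfold num
        rw [← this]
        push_cast
        ring
      · rw [if_neg hk, if_neg hk, zero_mul]
    rw [Finset.sum_congr rfl (fun k _ => e k), ← Finset.sum_filter, Finset.sum_const, nsmul_eq_mul]
    change (num u w r : ℝ) * (1 / (num u w r : ℝ)) ≤ 1
    rcases Nat.eq_zero_or_pos (num u w r) with h | h
    · rw [h]; simp
    · rw [mul_one_div_cancel (by positivity)]
  calc wt t r * _ ≤ wt t r * 1 := mul_le_mul_of_nonneg_left this (wt_nonneg h0 h1 r)
    _ = wt t r := mul_one _

/-- two applications of the Cauchy–Schwarz inequality -/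
theorem hoelder {κ : Type} [Fintype κ] (ρ P N : κ → ℝ) (hρ : ∀ r, 0 ≤ ρ r) (hP : ∀ r, 0 ≤ P r)
    (hN : ∀ r, 0 ≤ N r) (C : ℝ) (hs : ∑ r, ρ r = 1) (h : ∀ r, (1 + N r) * P r ^ 4 ≤ C) :
    (∑ r, ρ r * P r) ^ 4 ≤ C * ∑ r, ρ r * (1 / (1 + N r)) := by
  have cs : ∀ f g : κ → ℝ, (∑ r, ρ r * (f r * g r)) ^ 2 ≤ (∑ r, ρ r * f r ^ 2) * ∑ r, ρ r * g r ^ 2 := by
    intro f g
    have := Finset.sum_mul_sq_le_sq_mul_sq (Finset.univ) (fun r => √(ρ r) * f r) (fun r => √(ρ r) * g r)
    refine le_trans (le_of_eq ?_) (this.trans (le_of_eq ?_))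
    · congr 1
      refine Finset.sum_congr rfl fun r _ => ?_
      have := Real.mul_self_sqrt (hρ r)
      calc ρ r * (f r * g r) = (√(ρ r) * √(ρ r)) * (f r * g r) := by rw [this]
        _ = _ := by ring
    · congr 1
      · refine Finset.sum_congr rfl fun r _ => ?_
        rw [mul_pow, Real.sq_sqrt (hρ r)]
      · refine Finset.sum_congr rfl fun r _ => ?_
        rw [mul_pow, Real.sq_sqrt (hρ r)]
  set R : κ → ℝ := fun r => √(√(1 + N r)) with hR
  have hRpos : ∀ r, 0 < R r := fun r => by
    have := hN r
    apply Real.sqrt_pos.2 (Real.sqrt_pos.2 (by linarith))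
  have hR2 : ∀ r, R r ^ 2 = √(1 + N r) := fun r => Real.sq_sqrt (Real.sqrt_nonneg _)
  have hR4 : ∀ r, R r ^ 4 = 1 + N r := fun r => by
    have h1 : R r ^ 4 = (R r ^ 2) ^ 2 := by ring
    rw [h1, hR2, Real.sq_sqrt (by have := hN r; linarith)]
  have a1 := cs (fun r => P r * R r) (fun r => 1 / R r)
  have e1 : ∑ r, ρ r * (P r * R r * (1 / R r)) = ∑ r, ρ r * P r := by
    refine Finset.sum_congr rfl fun r _ => ?_
    have := (hRpos r).ne'
    field_simp
  rw [e1] at a1
  have a2 := cs (fun r => (P r * R r) ^ 2) (fun _ => 1)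
  have a3 := cs (fun r => (1 / R r) ^ 2) (fun _ => 1)
  simp only [mul_one, one_pow, hs] at a2 a3
  have b2 : ∑ r, ρ r * ((P r * R r) ^ 2) ^ 2 ≤ C := by
    calc ∑ r, ρ r * ((P r * R r) ^ 2) ^ 2 = ∑ r, ρ r * ((1 + N r) * P r ^ 4) := by
          refine Finset.sum_congr rfl fun r _ => ?_
          rw [← hR4 r]; ring
      _ ≤ ∑ r, ρ r * C := Finset.sum_le_sum fun r _ => mul_le_mul_of_nonneg_left (h r) (hρ r)
      _ = C := by rw [← Finset.sum_mul, hs, one_mul]
  have b3 : ∑ r, ρ r * ((1 / R r) ^ 2) ^ 2 = ∑ r, ρ r * (1 / (1 + N r)) := by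
    refine Finset.sum_congr rfl fun r _ => ?_
    rw [← hR4 r]
    have := (hRpos r).ne'
    field_simp
  have n1 : 0 ≤ ∑ r, ρ r * P r := Finset.sum_nonneg fun r _ => mul_nonneg (hρ r) (hP r)
  have n2 : 0 ≤ ∑ r, ρ r * (P r * R r) ^ 2 := Finset.sum_nonneg fun r _ => mul_nonneg (hρ r) (sq_nonneg _)
  have n3 : 0 ≤ ∑ r, ρ r * (1 / R r) ^ 2 := Finset.sum_nonneg fun r _ => mul_nonneg (hρ r) (sq_nonneg _)
  calc (∑ r, ρ r * P r) ^ 4 = ((∑ r, ρ r * P r) ^ 2) ^ 2 := by ring
    _ ≤ ((∑ r, ρ r * (P r * R r) ^ 2) * ∑ r, ρ r * (1 / R r) ^ 2) ^ 2 :=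
        pow_le_pow_left₀ (sq_nonneg _) a1 2
    _ = (∑ r, ρ r * (P r * R r) ^ 2) ^ 2 * (∑ r, ρ r * (1 / R r) ^ 2) ^ 2 := by ring
    _ ≤ C * ∑ r, ρ r * (1 / (1 + N r)) := by
        apply mul_le_mul (a2.trans b2) _ (sq_nonneg _) _
        · rw [← b3]; exact a3
        · exact (Finset.sum_nonneg fun r _ => mul_nonneg (hρ r) (sq_nonneg _)).trans b2

end Pool.Agent.J4H23.SD
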