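import Pool.Agent.J4H23.SD.Prob
import Pool.Agent.R811.Cross.Comb

set_option autoImplicit false

/-! Level sets of quadratic functions for arbitrary product probabilities on the cube. -/

namespace Pool.Agent.J4H23.SD

open Finset Pool.Agent.R811.Cross

variable {ι : Type} [Fintype ι] [DecidableEq ι]

omit [Fintype ι] in
theorem mix_update_true {r : ι → Bool} {i : ι} (h : r i = true) (y a : ι → Bool) (b : Bool) :
    mix r (Function.update y i b) a = Function.update (mix r y a) i b := by
  funext j
  by_cases hj : j = i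
  · subst hj; simp [mix, h]
  · simp [mix, hj]

omit [Fintype ι] in
theorem mix_update_false {r : ι → Bool} {i : ι} (h : r i = false) (y a : ι → Bool) (b : Bool) :
    mix r (Function.update y i b) a = mix r y a := by
  funext j
  by_cases hj : j = i
  · subst hj; simp [mix, h]
  · simp [mix, hj]

omit [Fintype ι] in
theorem D_mix (F : (ι → Bool) → ℤ) (r a : ι → Bool) (i : ι) (y : ι → Bool) :
    D i (fun z => F (mix r z a)) y = if r i = true then D i F (mix r y a) else 0 := by
  by_cases h : r i = true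
  · rw [if_pos h]
    unfold D
    beta_reduce
    rw [mix_update_true h, mix_update_true h]
  · have h' : r i = false := by simpa using h
    rw [if_neg h]
    unfold D
    beta_reduce
    rw [mix_update_false h', mix_update_false h', sub_self]

omit [Fintype ι] in
theorem DD_mix (F : (ι → Bool) → ℤ) (r a : ι → Bool) (i j : ι) (y : ι → Bool) :
    D j (D i (fun z => F (mix r z a))) y = if r i = true ∧ r j = true then D j (D i F) (mix r y a) else 0 := by
  by_cases h : r i = true
  · have e : D i (fun z => F (mix r z a)) = fun z => D i F (mix r z a) := by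
      funext z
      rw [D_mix, if_pos h]
    rw [e, D_mix]
    by_cases h2 : r j = true
    · rw [if_pos h2, if_pos ⟨h, h2⟩]
    · rw [if_neg h2, if_neg (fun hh => h2 hh.2)]
  · have e : D i (fun z => F (mix r z a)) = fun _ => 0 := by
      funext z
      rw [D_mix, if_neg h]
    rw [e, if_neg (fun hh => h hh.1)]
    unfold D
    simp

theorem level_mix (F : (ι → Bool) → ℤ) (c : ℤ) {ν : ℕ} (u w : Fin ν → ι)
    (hinj : Function.Injective (Sum.elim u w))
    (h3 : ∀ i j, i ≠ j → ∀ x y, D j (D i F) x = D j (D i F) y)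
    (hne : ∀ k x, D (u k) (D (w k) F) x ≠ 0) (r a : ι → Bool) :
    (num u w r : ℤ) * ((Finset.univ.filter (fun y => F (mix r y a) = c)).card : ℤ) ^ 4 ≤
      162 * 16 ^ Fintype.card ι := by
  classical
  set K := Finset.univ.filter (fun k => r (u k) = true ∧ r (w k) = true) with hK
  have hnum : num u w r = K.card := rfl
  rw [hnum]
  set e : Fin K.card ≃ K := K.equivFin.symm with he
  refine level (fun y => F (mix r y a)) c (fun j => u (e j)) (fun j => w (e j)) ?_ ?_ ?_
  · have h1 : (Sum.elim (fun j => u (e j)) (fun j => w (e j)) : Fin K.card ⊕ Fin K.card → ι) =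
        Sum.elim u w ∘ Sum.map (fun j => (e j : Fin ν)) (fun j => (e j : Fin ν)) := by
      funext z
      rcases z with z | z <;> rfl
    rw [h1]
    apply hinj.comp
    have h2 : Function.Injective (fun j => (e j : Fin ν)) := Subtype.val_injective.comp e.injective
    exact Sum.map_injective.2 ⟨h2, h2⟩
  · intro i j hij x y
    rw [DD_mix, DD_mix]
    split_ifs
    · exact h3 i j hij _ _
    · rfl
  · intro k x
    have hk := Finset.mem_filter.1 (e k).2
    rw [DD_mix, if_pos ⟨hk.2.2, hk.2.1⟩]
    exact hne _ _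

/-- Anticoncentration of a quadratic function on the cube with a product probability. -/
theorem level_biased (F : (ι → Bool) → ℤ) (c : ℤ) {ν : ℕ} (u w : Fin ν → ι)
    (hinj : Function.Injective (Sum.elim u w))
    (h3 : ∀ i j, i ≠ j → ∀ x y, D j (D i F) x = D j (D i F) y)
    (hne : ∀ k x, D (u k) (D (w k) F) x ≠ 0) (q : ι → ℝ) (hq0 : ∀ i, 0 ≤ q i) (hq1 : ∀ i, q i ≤ 1 / 2)
    (a : ι → Bool) :
    (∑ k, q (u k) * q (w k)) *
      (∑ s ∈ Finset.univ.filter (fun s => F s = c), wt (fun i => if a i then 1 - q i else q i) s) ^ 4 ≤ 41 := by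
  classical
  set B : (ι → Bool) → ℝ := fun s => if F s = c then 1 else 0 with hB
  have e1 : ∑ s ∈ Finset.univ.filter (fun s => F s = c), wt (fun i => if a i then 1 - q i else q i) s =
      ∑ s, wt (fun i => if a i then 1 - q i else q i) s * B s := by
    rw [Finset.sum_filter]
    refine Finset.sum_congr rfl fun s _ => ?_
    simp only [hB]
    split_ifs <;> simp
  rw [e1, mixture]
  set P : (ι → Bool) → ℝ := fun r => (1 / 2) ^ Fintype.card ι * ∑ y, B (mix r y a) with hP
  have hP' : ∀ r, P r = (1 / 2) ^ Fintype.card ι *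
      ((Finset.univ.filter (fun y => F (mix r y a) = c)).card : ℝ) := by
    intro r
    simp only [hP, hB]
    congr 1
    rw [Finset.card_filter]
    push_cast
    rfl
  have t0 : ∀ i, 0 ≤ 2 * q i := fun i => by have := hq0 i; linarith
  have t1 : ∀ i, 2 * q i ≤ 1 := fun i => by have := hq1 i; linarith
  have hP1 : ∀ r, P r ≤ 1 := by
    intro r
    rw [hP' r]
    have h1 : ((Finset.univ.filter (fun y => F (mix r y a) = c)).card : ℝ) ≤ 2 ^ Fintype.card ι := by
      have := Finset.card_filter_le (Finset.univ : Finset (ι → Bool)) (fun y => F (mix r y a) = c)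
      rw [Finset.card_univ, Fintype.card_fun, Fintype.card_bool] at this
      exact_mod_cast this
    calc (1 / 2 : ℝ) ^ Fintype.card ι * ((Finset.univ.filter (fun y => F (mix r y a) = c)).card : ℝ)
        ≤ (1 / 2 : ℝ) ^ Fintype.card ι * 2 ^ Fintype.card ι := mul_le_mul_of_nonneg_left h1 (by positivity)
      _ = 1 := by rw [← mul_pow]; norm_num
  have hP0 : ∀ r, 0 ≤ P r := fun r => by rw [hP' r]; positivity
  have hPN : ∀ r, (1 + (num u w r : ℝ)) * P r ^ 4 ≤ 163 := by
    intro r
    have h1 := level_mix F c u w hinj h3 hne r a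
    have h2 : (num u w r : ℝ) * ((Finset.univ.filter (fun y => F (mix r y a) = c)).card : ℝ) ^ 4 ≤
        162 * 16 ^ Fintype.card ι := by exact_mod_cast h1
    have h3 : (num u w r : ℝ) * P r ^ 4 ≤ 162 := by
      rw [hP' r, mul_pow, ← pow_mul, mul_comm (Fintype.card ι) 4, pow_mul]
      calc (num u w r : ℝ) * (((1 / 2 : ℝ) ^ 4) ^ Fintype.card ι *
            ((Finset.univ.filter (fun y => F (mix r y a) = c)).card : ℝ) ^ 4)
          = ((1 / 2 : ℝ) ^ 4) ^ Fintype.card ι * ((num u w r : ℝ) *
            ((Finset.univ.filter (fun y => F (mix r y a) = c)).card : ℝ) ^ 4) := by ring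
        _ ≤ ((1 / 2 : ℝ) ^ 4) ^ Fintype.card ι * (162 * 16 ^ Fintype.card ι) :=
            mul_le_mul_of_nonneg_left h2 (by positivity)
        _ = 162 * (((1 / 2 : ℝ) ^ 4) ^ Fintype.card ι * 16 ^ Fintype.card ι) := by ring
        _ = 162 := by rw [← mul_pow]; norm_num
    have h4 : P r ^ 4 ≤ 1 := pow_le_one₀ (hP0 r) (hP1 r)
    linarith
  have hH := hoelder (wt (fun i => 2 * q i)) P (fun r => (num u w r : ℝ)) (wt_nonneg t0 t1) hP0
    (fun r => by positivity) 163 (sum_wt _) hPN
  have hW := pair_weight u w hinj (fun i => 2 * q i) t0 t1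
  have e4 : ∑ k, 2 * q (u k) * (2 * q (w k)) = 4 * ∑ k, q (u k) * q (w k) := by
    rw [Finset.mul_sum]
    exact Finset.sum_congr rfl fun k _ => by ring
  rw [e4] at hW
  set μ := ∑ k, q (u k) * q (w k) with hμ
  have hμ0 : 0 ≤ μ := Finset.sum_nonneg fun k _ => mul_nonneg (hq0 _) (hq0 _)
  calc μ * (∑ r, wt (fun i => 2 * q i) r * P r) ^ 4
      ≤ μ * (163 * ∑ r, wt (fun i => 2 * q i) r * (1 / (1 + (num u w r : ℝ)))) :=
        mul_le_mul_of_nonneg_left hH hμ0
    _ = 163 / 4 * (4 * μ * ∑ r, wt (fun i => 2 * q i) r * (1 / (1 + (num u w r : ℝ)))) := by ring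
    _ ≤ 163 / 4 * 1 := mul_le_mul_of_nonneg_left hW (by norm_num)
    _ ≤ 41 := by norm_num

/-- The same for arbitrary product probabilities. -/
theorem level_prod (F : (ι → Bool) → ℤ) (c : ℤ) {ν : ℕ} (u w : Fin ν → ι)
    (hinj : Function.Injective (Sum.elim u w))
    (h3 : ∀ i j, i ≠ j → ∀ x y, D j (D i F) x = D j (D i F) y)
    (hne : ∀ k x, D (u k) (D (w k) F) x ≠ 0) (q p : ι → ℝ) (hq0 : ∀ i, 0 ≤ q i)
    (hqp : ∀ i, q i ≤ p i ∧ p i ≤ 1 - q i) :
    (∑ k, q (u k) * q (w k)) * (∑ s ∈ Finset.univ.filter (fun s => F s = c), wt p s) ^ 4 ≤ 41 := by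
  classical
  set q' : ι → ℝ := fun i => min (p i) (1 - p i) with hq'
  set a : ι → Bool := fun i => decide (1 / 2 ≤ p i) with ha
  have e : (fun i => if a i then 1 - q' i else q' i) = p := by
    funext i
    simp only [ha, hq', decide_eq_true_eq]
    split_ifs with h
    · rw [min_eq_right (by linarith)]; ring
    · rw [min_eq_left (by linarith)]
  have q'0 : ∀ i, 0 ≤ q' i := fun i => le_min (by have := hqp i; have := hq0 i; linarith)
    (by have := hqp i; have := hq0 i; linarith)
  have q'1 : ∀ i, q' i ≤ 1 / 2 := fun i => by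
    simp only [hq']
    rcases le_total (p i) (1 / 2) with h | h
    · exact (min_le_left _ _).trans h
    · exact (min_le_right _ _).trans (by linarith)
  have hqq : ∀ i, q i ≤ q' i := fun i => le_min (hqp i).1 (by have := (hqp i).2; linarith)
  have h := level_biased F c u w hinj h3 hne q' q'0 q'1 a
  rw [e] at h
  refine le_trans (mul_le_mul_of_nonneg_right ?_ (by positivity)) h
  exact Finset.sum_le_sum fun k _ => mul_le_mul (hqq _) (hqq _) (hq0 _) (q'0 _)

end Pool.Agent.J4H23.SD
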