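import Pool.Agent.J4H23.SD.Lev
import Pool.Agent.R811.VS.Choices

set_option autoImplicit false

/-! Random crossings: the probability of not being separated by Vassiliev invariants of order two. -/

namespace Pool.Agent.J4H23.SD

open Finset Pool.Agent.H832R3.VJ Pool.Agent.R811.Cross Pool.Agent.R811.VS

variable {n : ℕ}

open Classical in
/-- The probability of the set `A` of points of the cube, if the bits are independent and the bit `i` is `true`
with probability `p i`. -/
noncomputable def prob (p : Fin n → ℝ) (A : Set (Fin n → Bool)) : ℝ :=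
  ∑ s : Fin n → Bool, if s ∈ A then ∏ i, (if s i then p i else 1 - p i) else 0

theorem prob_nonneg {p : Fin n → ℝ} (h0 : ∀ i, 0 ≤ p i) (h1 : ∀ i, p i ≤ 1) (A : Set (Fin n → Bool)) :
    0 ≤ prob p A := by
  classical
  unfold prob
  refine Finset.sum_nonneg fun s _ => ?_
  split_ifs
  · exact wt_nonneg h0 h1 s
  · exact le_rfl

theorem main (G : Shadow n) (q p : Fin n → ℝ) (hq : ∀ i, 0 ≤ q i)
    (hp : ∀ i, q i ≤ p i ∧ p i ≤ 1 - q i) (X : Dia) {ν : ℕ} (u w : Fin ν → Fin n)
    (hinj : Function.Injective (Sum.elim u w)) (h : ∀ k, G.Interlaced (u k) (w k)) :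
    (∑ k, q (u k) * q (w k)) * prob p {s | ¬ Separated 2 (dia G s) X} ^ 4 ≤ 41 := by
  classical
  have p0 : ∀ i, 0 ≤ p i := fun i => (hq i).trans (hp i).1
  have p1 : ∀ i, p i ≤ 1 := fun i => by have := (hp i).2; have := hq i; linarith
  have h1 := level_prod (F G) (moment 2 X.D.fPoly) u w hinj (fun i j hij x y => D2_const G hij x y)
    (fun k x => by
      have hne := (ne_of_interlaced G (h k)).symm
      rw [D_comm hne.symm]
      exact D2 G (h k) x) q p hq hp
  have h2 : prob p {s | ¬ Separated 2 (dia G s) X} ≤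
      ∑ s ∈ Finset.univ.filter (fun s => F G s = moment 2 X.D.fPoly), wt p s := by
    unfold prob
    rw [Finset.sum_filter]
    refine Finset.sum_le_sum fun s _ => ?_
    by_cases hs : s ∈ {s | ¬ Separated 2 (dia G s) X}
    · rw [if_pos hs, if_pos (F_of_not_separated G s X hs)]
      exact le_rfl
    · rw [if_neg hs]
      split_ifs
      · exact wt_nonneg p0 p1 s
      · exact le_rfl
  refine le_trans (mul_le_mul_of_nonneg_left
    (pow_le_pow_left₀ (prob_nonneg p0 p1 _) h2 4) ?_) h1
  exact Finset.sum_nonneg fun k _ => mul_nonneg (hq _) (hq _)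

end Pool.Agent.J4H23.SD
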